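import Mathlib

/-! Paths and cycles as lists; the Erdős–Gallai bound for cycles by deleting the set of
rotation ends of a longest path. -/

set_option autoImplicit false
set_option linter.unusedSectionVars false

namespace H113TC

open Finset

variable {V : Type*} [DecidableEq V] (G : SimpleGraph V) [DecidableRel G.Adj]

/-- A path of `G` inside `S`, as a list. -/
def IsPa (S : Finset V) (l : List V) : Prop :=
  l.Nodup ∧ l.IsChain G.Adj ∧ ∀ v ∈ l, v ∈ S

/-- A cycle of `G`, as a list. -/
def IsCyc (l : List V) : Prop :=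
  3 ≤ l.length ∧ l.Nodup ∧ l.IsChain G.Adj ∧ ∀ a ∈ l.getLast?, ∀ b ∈ l.head?, G.Adj a b

/-- Degree of `v` into `S`. -/
def dg (S : Finset V) (v : V) : ℕ := (S.filter (fun u => G.Adj v u)).card

/-- Sum of the degrees inside `S`. -/
def E2 (S : Finset V) : ℕ := ∑ v ∈ S, dg G S v

theorem dg_le (S : Finset V) (v : V) : dg G S v ≤ S.card := card_filter_le _ _

theorem dg_lt {S : Finset V} {v : V} (hv : v ∈ S) : dg G S v < S.card := by
  refine card_lt_card ⟨filter_subset _ _, fun h => ?_⟩
  have := (mem_filter.mp (h hv)).2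
  exact G.loopless.irrefl v this

theorem dg_union {S T : Finset V} (h : Disjoint S T) (v : V) :
    dg G (S ∪ T) v = dg G S v + dg G T v := by
  unfold dg
  rw [filter_union, card_union_of_disjoint]
  exact disjoint_filter_filter h

theorem dg_sdiff {S U : Finset V} (h : U ⊆ S) (v : V) :
    dg G S v = dg G (S \ U) v + dg G U v := by
  rw [← dg_union G (sdiff_disjoint), sdiff_union_of_subset h]

theorem sum_dg_comm (S T : Finset V) : ∑ v ∈ S, dg G T v = ∑ v ∈ T, dg G S v := by
  unfold dg
  simp only [card_filter]
  rw [sum_comm]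
  refine sum_congr rfl fun a _ => sum_congr rfl fun b _ => ?_
  simp [G.adj_comm]

theorem E2_sdiff {S U : Finset V} (h : U ⊆ S) :
    E2 G S + E2 G U = E2 G (S \ U) + 2 * ∑ u ∈ U, dg G S u := by
  have h1 : E2 G S = ∑ v ∈ S \ U, dg G S v + ∑ v ∈ U, dg G S v := by
    unfold E2
    rw [sum_sdiff h]
  have h2 : ∑ v ∈ S \ U, dg G S v = E2 G (S \ U) + ∑ v ∈ S \ U, dg G U v := by
    unfold E2
    rw [← sum_add_distrib]
    exact sum_congr rfl fun v _ => dg_sdiff G h v
  have h3 : ∑ v ∈ U, dg G S v = ∑ v ∈ U, dg G (S \ U) v + E2 G U := by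
    unfold E2
    rw [← sum_add_distrib]
    exact sum_congr rfl fun v _ => dg_sdiff G h v
  have h4 := sum_dg_comm G (S \ U) U
  omega

/-- Reversing an initial segment of a path. -/
theorem rotate_chain {l : List V} (hl : l.IsChain G.Adj) {a : V} (ha : l.head? = some a)
    {i : ℕ} (hi : i + 1 < l.length) (hadj : G.Adj a l[i + 1]) :
    ((l.take (i + 1)).reverse ++ l.drop (i + 1)).IsChain G.Adj := by
  rw [List.isChain_append]
  refine ⟨?_, hl.drop _, ?_⟩
  · rw [List.isChain_reverse]
    exact (hl.take (i + 1)).imp (fun x y h => SimpleGraph.Adj.symm h)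
  · intro x hx y hy
    have hx' : x = a := by
      rw [List.getLast?_reverse] at hx
      have : (l.take (i + 1)).head? = l.head? := by
        cases l with
        | nil => simp
        | cons b t => simp
      rw [this, ha] at hx
      simpa using hx.symm
    have hy' : y = l[i + 1] := by
      rw [List.head?_drop] at hy
      rw [List.getElem?_eq_getElem hi] at hy
      simpa using hy.symm
    rw [hx', hy']
    exact hadj

theorem rotate_perm (l : List V) (i : ℕ) :
    ((l.take (i + 1)).reverse ++ l.drop (i + 1)).Perm l := by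
  have h1 : ((l.take (i + 1)).reverse ++ l.drop (i + 1)).Perm (l.take (i + 1) ++ l.drop (i + 1)) :=
    List.Perm.append_right _ (List.reverse_perm _)
  rwa [List.take_append_drop] at h1

end H113TC
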