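import Pool.Agent.H113TC.Basic

set_option autoImplicit false
set_option linter.unusedSectionVars false

namespace H113TC

open Finset

variable {V : Type*} [DecidableEq V] (G : SimpleGraph V) [DecidableRel G.Adj]

theorem IsPa.length_le {S : Finset V} {l : List V} (h : IsPa G S l) : l.length ≤ S.card := by
  have h1 : l.toFinset ⊆ S := fun v hv => h.2.2 v (List.mem_toFinset.mp hv)
  have h2 := card_le_card h1
  rwa [List.toFinset_card_of_nodup h.1] at h2

/-- `Good S l s`: `l` is a path in `S` of length `p` whose head is adjacent to its `s`-th
vertex (or `s = 1`). -/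
def Good (S : Finset V) (l : List V) (s : ℕ) : Prop :=
  IsPa G S l ∧ 1 ≤ s ∧ s ≤ l.length ∧
    (s = 1 ∨ ∀ a ∈ l.head?, ∀ b ∈ l[s - 1]?, G.Adj a b)

/-- A longest path with the furthest neighbour of its head as far as possible. -/
theorem exists_extremal (S : Finset V) (hS : S.Nonempty) :
    ∃ (l : List V) (s : ℕ), Good G S l s ∧ (∀ l', IsPa G S l' → l'.length ≤ l.length) ∧
      (∀ l' s', Good G S l' s' → l'.length = l.length → s' ≤ s) := by
  classical
  obtain ⟨x, hx⟩ := hS
  have hne : ∃ p, ∃ l, IsPa G S l ∧ l.length = p ∧ 1 ≤ p :=
    ⟨1, [x], ⟨List.nodup_singleton _, List.isChain_singleton _, by simpa using hx⟩, rfl, le_rfl⟩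
  let P : ℕ → Prop := fun p => ∃ l, IsPa G S l ∧ l.length = p ∧ 1 ≤ p
  have hb : ∀ p, P p → p ≤ S.card := by
    rintro p ⟨l, hl, rfl, _⟩
    exact hl.length_le G
  obtain ⟨p0, hp0⟩ := hne
  have hPm : P (Nat.findGreatest P S.card) := Nat.findGreatest_spec (P := P) (hb p0 hp0) hp0
  have hPmax : ∀ p, P p → p ≤ Nat.findGreatest P S.card := fun p hp =>
    Nat.le_findGreatest (hb p hp) hp
  set p := Nat.findGreatest P S.card with hp
  let Q : ℕ → Prop := fun s => ∃ l, Good G S l s ∧ l.length = p
  have hQ1 : Q 1 := by
    obtain ⟨l, hl, h1, h2⟩ := hPm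
    exact ⟨l, ⟨hl, le_rfl, by omega, Or.inl rfl⟩, h1⟩
  have hQb : ∀ s, Q s → s ≤ p := by
    rintro s ⟨l, hl, h1⟩
    rw [← h1]
    exact hl.2.2.1
  have hQm : Q (Nat.findGreatest Q p) := Nat.findGreatest_spec (P := Q) (hQb 1 hQ1) hQ1
  have hQmax : ∀ s, Q s → s ≤ Nat.findGreatest Q p := fun s hs =>
    Nat.le_findGreatest (hQb s hs) hs
  obtain ⟨l, hl, h1⟩ := hQm
  refine ⟨l, Nat.findGreatest Q p, hl, ?_, ?_⟩
  · intro l' hl'
    rcases Nat.eq_zero_or_pos l'.length with h0 | h0
    · omega
    · rw [h1]
      exact hPmax _ ⟨l', hl', rfl, h0⟩
  · intro l' s' hl' h2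
    exact hQmax s' ⟨l', hl', by rw [h2, h1]⟩

/-- The set of rotation ends. -/
theorem exists_ends (S : Finset V) (hS : S.Nonempty) (K : ℕ) (hK : 2 ≤ K)
    (hc : ∀ l : List V, IsCyc G l → l.length ≤ K) :
    ∃ U : Finset V, U ⊆ S ∧ U.Nonempty ∧ U.card ≤ K ∧ ∀ u ∈ U, 2 * dg G S u ≤ K + dg G U u := by
  classical
  obtain ⟨l, s, hg, hlong, hfar⟩ := exists_extremal G S hS
  obtain ⟨hpa, hs1, hsl, hsadj⟩ := hg
  -- the initial segment
  set V1 : Finset V := (l.take s).toFinset with hV1
  have hV1card : V1.card = s := by
    rw [hV1, List.toFinset_card_of_nodup (hpa.1.sublist (List.take_sublist _ _)),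
      List.length_take]
    omega
  have hsK : s ≤ K := by
    rcases hsadj with h | h
    · omega
    · by_cases h3 : 3 ≤ s
      · have hcyc : IsCyc G (l.take s) := by
          refine ⟨by rw [List.length_take]; omega, hpa.1.sublist (List.take_sublist _ _),
            hpa.2.1.take s, ?_⟩
          intro a ha b hb
          have hb' : b ∈ l.head? := by
            cases l with
            | nil => simp at hb
            | cons c t =>
              obtain ⟨k, rfl⟩ : ∃ k, s = k + 1 := ⟨s - 1, by omega⟩
              simpa using hb
          have ha' : a ∈ l[s - 1]? := by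
            rw [List.getLast?_eq_getElem?, List.length_take, min_eq_left hsl] at ha
            rw [List.getElem?_take_of_lt (by omega)] at ha
            exact ha
          exact (h b hb' a ha').symm
        have := hc _ hcyc
        rw [List.length_take] at this
        omega
      · omega
  -- admissible starts
  let Adm : List V → Prop := fun x => x.Perm (l.take s) ∧ (x ++ l.drop s).IsChain G.Adj
  have hAdm0 : Adm (l.take s) := ⟨List.Perm.refl _, by rw [List.take_append_drop]; exact hpa.2.1⟩
  have hAdmLen : ∀ x, Adm x → x.length = s := by
    intro x hx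
    rw [hx.1.length_eq, List.length_take]
    omega
  have hAdmPa : ∀ x, Adm x → IsPa G S (x ++ l.drop s) := by
    intro x hx
    have hperm : (x ++ l.drop s).Perm l := by
      have := List.Perm.append_right (l.drop s) hx.1
      rwa [List.take_append_drop] at this
    exact ⟨hperm.nodup_iff.mpr hpa.1, hx.2, fun v hv => hpa.2.2 v (hperm.mem_iff.mp hv)⟩
  have hAdmLen2 : ∀ x, Adm x → (x ++ l.drop s).length = l.length := by
    intro x hx
    rw [List.length_append, hAdmLen x hx, List.length_drop]
    omega
  -- neighbours of the head of an admissible start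
  have hnb : ∀ x, Adm x → ∀ u ∈ x.head?, ∀ v ∈ S, G.Adj u v → v ∈ V1 := by
    intro x hx u hu v hv huv
    have hP := hAdmPa x hx
    have hxne : x ≠ [] := by
      intro h
      rw [h] at hu
      simp at hu
    have hhead : (x ++ l.drop s).head? = some u := by
      rw [List.head?_append]
      have : x.head? = some u := hu
      rw [this]
      rfl
    -- v is on the path
    have hvP : v ∈ x ++ l.drop s := by
      by_contra hcon
      have hnew : IsPa G S (v :: (x ++ l.drop s)) := by
        refine ⟨List.nodup_cons.mpr ⟨hcon, hP.1⟩, ?_, ?_⟩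
        · rw [List.isChain_cons]
          refine ⟨?_, hP.2.1⟩
          intro y hy
          rw [hhead] at hy
          have : y = u := by simpa using hy.symm
          rw [this]
          exact huv.symm
        · intro w hw
          rcases List.mem_cons.mp hw with h | h
          · rw [h]; exact hv
          · exact hP.2.2 w h
      have h1 := hlong _ hnew
      rw [List.length_cons, hAdmLen2 x hx] at h1
      omega
    rcases List.mem_append.mp hvP with h | h
    · rw [hV1, List.mem_toFinset]
      exact hx.1.mem_iff.mp h
    · exfalso
      obtain ⟨i, hi, hiv⟩ := List.getElem_of_mem h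
      have hgood : Good G S (x ++ l.drop s) (s + i + 1) := by
        refine ⟨hP, by omega, ?_, Or.inr ?_⟩
        · rw [List.length_drop] at hi
          rw [hAdmLen2 x hx]
          omega
        · intro a ha b hb
          rw [hhead] at ha
          have ha' : a = u := by simpa using ha.symm
          have hb' : b = v := by
            rw [show s + i + 1 - 1 = s + i from by omega] at hb
            rw [List.getElem?_append_right (by rw [hAdmLen x hx]; omega)] at hb
            rw [hAdmLen x hx, show s + i - s = i from by omega,
              List.getElem?_eq_getElem hi] at hb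
            rw [hiv] at hb
            simpa using hb.symm
          rw [ha', hb']
          exact huv
      have := hfar _ _ hgood (hAdmLen2 x hx)
      omega
  -- the set of ends
  let U : Finset V := V1.filter (fun u => ∃ x, Adm x ∧ u ∈ x.head?)
  have hUmem : ∀ u, u ∈ U ↔ ∃ x, Adm x ∧ u ∈ x.head? := by
    intro u
    constructor
    · intro h
      exact (mem_filter.mp h).2
    · rintro ⟨x, hx, hu⟩
      refine mem_filter.mpr ⟨?_, x, hx, hu⟩
      rw [hV1, List.mem_toFinset]
      exact hx.1.mem_iff.mp (List.mem_of_mem_head? hu)
  have hUV1 : U ⊆ V1 := filter_subset _ _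
  have hV1S : V1 ⊆ S := by
    intro v hv
    rw [hV1, List.mem_toFinset] at hv
    exact hpa.2.2 v (List.mem_of_mem_take hv)
  have hUne : U.Nonempty := by
    have hne : l.take s ≠ [] := by
      intro h
      have := congrArg List.length h
      rw [List.length_take, List.length_nil] at this
      omega
    obtain ⟨a, t, hat⟩ := List.exists_cons_of_ne_nil hne
    exact ⟨a, (hUmem a).mpr ⟨l.take s, hAdm0, by rw [hat]; simp⟩⟩
  -- degrees are at most the number of ends
  have hdeg : ∀ u ∈ U, dg G S u ≤ U.card := by
    intro u hu
    obtain ⟨x, hx, hux⟩ := (hUmem u).mp hu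
    have hhead : x.head? = some u := hux
    have hxnodup : x.Nodup := by
      have := (hAdmPa x hx).1
      exact this.sublist (List.sublist_append_left _ _)
    -- neighbours correspond to indices
    have hsub : S.filter (fun v => G.Adj u v) ⊆
        ((Finset.range s).filter (fun i => ∃ v ∈ x[i + 1]?, G.Adj u v)).image
          (fun i => (x[i + 1]?).getD u) := by
      intro v hv
      obtain ⟨hvS, huv⟩ := mem_filter.mp hv
      have h1 := hnb x hx u hux v hvS huv
      rw [hV1, List.mem_toFinset] at h1
      have h2 : v ∈ x := hx.1.mem_iff.mpr h1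
      obtain ⟨i, hi, hiv⟩ := List.getElem_of_mem h2
      have hi0 : i ≠ 0 := by
        rintro rfl
        have : x.head? = some v := by
          rw [List.head?_eq_getElem?, List.getElem?_eq_getElem hi, hiv]
        rw [hhead] at this
        have h3 : u = v := by simpa using this
        rw [h3] at huv
        exact G.loopless.irrefl v huv
      have hlen := hAdmLen x hx
      refine mem_image.mpr ⟨i - 1, mem_filter.mpr ⟨mem_range.mpr (by omega), ?_⟩, ?_⟩
      · refine ⟨v, ?_, huv⟩
        rw [show i - 1 + 1 = i from by omega, List.getElem?_eq_getElem hi, hiv]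
        rfl
      · rw [show i - 1 + 1 = i from by omega, List.getElem?_eq_getElem hi, hiv]
        rfl
    have hcard1 : dg G S u ≤
        ((Finset.range s).filter (fun i => ∃ v ∈ x[i + 1]?, G.Adj u v)).card := by
      unfold dg
      exact (card_le_card hsub).trans card_image_le
    have hcard2 : ((Finset.range s).filter (fun i => ∃ v ∈ x[i + 1]?, G.Adj u v)).card ≤
        U.card := by
      refine card_le_card_of_injOn (fun i => (x[i]?).getD u) ?_ ?_
      · intro i hi
        obtain ⟨hi1, v, hv, huv⟩ := mem_filter.mp hi
        have hi2 : i + 1 < x.length := by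
          by_contra hcon
          rw [List.getElem?_eq_none (by omega)] at hv
          simp at hv
        have hv' : x[i + 1] = v := by
          rw [List.getElem?_eq_getElem hi2] at hv
          simpa using hv
        have hi3 : i < x.length := by omega
        have hchain := (hAdmPa x hx).2.1
        have hhead2 : (x ++ l.drop s).head? = some u := by
          rw [List.head?_append, hhead]
          rfl
        have hi4 : i + 1 < (x ++ l.drop s).length := by
          rw [List.length_append]; omega
        have hrot := rotate_chain G hchain hhead2 hi4 (by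
          rw [List.getElem_append_left hi2, hv']
          exact huv)
        rw [List.take_append_of_le_length (by omega),
          List.drop_append_of_le_length (by omega), ← List.append_assoc] at hrot
        have hnew : Adm ((x.take (i + 1)).reverse ++ x.drop (i + 1)) :=
          ⟨(rotate_perm x i).trans hx.1, hrot⟩
        show (x[i]?).getD u ∈ (U : Set V)
        rw [List.getElem?_eq_getElem hi3]
        simp only [Option.getD_some]
        refine (hUmem _).mpr ⟨_, hnew, ?_⟩
        rw [List.head?_append, List.head?_reverse, List.getLast?_eq_getElem?, List.length_take,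
          List.getElem?_take_of_lt (by omega)]
        rw [show min (i + 1) x.length - 1 = i from by omega, List.getElem?_eq_getElem hi3]
        rfl
      · intro i hi j hj hij
        obtain ⟨hi1, v, hv, -⟩ := mem_filter.mp hi
        obtain ⟨hj1, w, hw, -⟩ := mem_filter.mp hj
        have hi2 : i + 1 < x.length := by
          by_contra hcon
          rw [List.getElem?_eq_none (by omega)] at hv
          simp at hv
        have hj2 : j + 1 < x.length := by
          by_contra hcon
          rw [List.getElem?_eq_none (by omega)] at hw
          simp at hw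
        have hi3 : i < x.length := by omega
        have hj3 : j < x.length := by omega
        simp only [List.getElem?_eq_getElem hi3, List.getElem?_eq_getElem hj3,
          Option.getD_some] at hij
        exact (List.Nodup.getElem_inj_iff hxnodup).mp hij
    exact hcard1.trans hcard2
  refine ⟨U, hUV1.trans hV1S, hUne, ?_, ?_⟩
  · exact ((card_le_card hUV1).trans hV1card.le).trans hsK
  · intro u hu
    obtain ⟨x, hx, hux⟩ := (hUmem u).mp hu
    have h1 : dg G S u ≤ dg G U u + (s - U.card) := by
      have hsub : S.filter (fun v => G.Adj u v) ⊆ U.filter (fun v => G.Adj u v) ∪ (V1 \ U) := by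
        intro v hv
        obtain ⟨hvS, huv⟩ := mem_filter.mp hv
        have h2 := hnb x hx u hux v hvS huv
        by_cases h3 : v ∈ U
        · exact mem_union_left _ (mem_filter.mpr ⟨h3, huv⟩)
        · exact mem_union_right _ (mem_sdiff.mpr ⟨h2, h3⟩)
      have h4 := (card_le_card hsub).trans (card_union_le _ _)
      rw [card_sdiff_of_subset hUV1, hV1card] at h4
      exact h4
    have h2 := hdeg u hu
    have h3 : U.card ≤ s := (card_le_card hUV1).trans hV1card.le
    omega

/-- Erdős–Gallai: if all cycles have length at most `K` then the degree sum inside `S` is at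
most `K (|S| - 1)`. -/
theorem erdos_gallai (K : ℕ) (hK : 2 ≤ K) (hc : ∀ l : List V, IsCyc G l → l.length ≤ K) :
    ∀ (n : ℕ) (S : Finset V), S.card = n → S.Nonempty → E2 G S ≤ K * (S.card - 1) := by
  intro n
  induction n using Nat.strong_induction_on with
  | _ n ih =>
    intro S hn hS
    by_cases hsmall : S.card ≤ K
    · have h1 : ∀ v ∈ S, dg G S v ≤ S.card - 1 := fun v hv => by
        have := dg_lt G hv
        omega
      calc E2 G S ≤ ∑ _v ∈ S, (S.card - 1) := sum_le_sum h1
        _ = S.card * (S.card - 1) := by rw [sum_const, smul_eq_mul]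
        _ ≤ K * (S.card - 1) := Nat.mul_le_mul_right _ hsmall
    · push Not at hsmall
      obtain ⟨U, hUS, hUne, hUK, hU⟩ := exists_ends G S hS K hK hc
      have hUpos : 0 < U.card := card_pos.mpr hUne
      have hcard : (S \ U).card = S.card - U.card := card_sdiff_of_subset hUS
      have hne : (S \ U).Nonempty := by
        rw [← card_pos, hcard]
        omega
      have h1 := ih (S \ U).card (by rw [hcard]; omega) (S \ U) rfl hne
      have h2 := E2_sdiff G hUS
      have h3 : 2 * ∑ u ∈ U, dg G S u ≤ K * U.card + E2 G U := by
        calc 2 * ∑ u ∈ U, dg G S u = ∑ u ∈ U, 2 * dg G S u := by rw [mul_sum]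
          _ ≤ ∑ u ∈ U, (K + dg G U u) := sum_le_sum hU
          _ = K * U.card + E2 G U := by
              rw [sum_add_distrib, sum_const, smul_eq_mul, mul_comm]
              rfl
      have h4 : E2 G S ≤ K * ((S \ U).card - 1) + K * U.card := by omega
      refine h4.trans ?_
      rw [← Nat.mul_add]
      refine Nat.mul_le_mul_left _ ?_
      rw [hcard]
      omega

end H113TC
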