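import Pool.Agent.H113TC.Seq

/-! The vertices outside a longest cycle can be deleted. -/

set_option autoImplicit false
set_option linter.unusedSectionVars false

namespace H113TC

open Finset

variable {V : Type*} [DecidableEq V] (G : SimpleGraph V) [DecidableRel G.Adj]

/-- Two sets of residues at distance more than `r` in one direction. -/
theorem gap {c r : ℕ} (hr : 1 ≤ r) (p q : ℕ → Prop) [DecidablePred p] [DecidablePred q]
    (hq0 : q c) (hpne : ∃ t < c, p t)
    (hsep : ∀ t, t < c → p t → ∀ k, 1 ≤ k → k ≤ r → ¬ q (t + k)) (hqc : q 0 ∨ ¬ q 0) :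
    ((range c).filter p).card + ((range c).filter q).card + (r - 1) ≤ c := by
  classical
  have _ := hqc
  have hpr : ∀ t, t < c → p t → t + r < c := by
    intro t ht hpt
    by_contra hcon
    have := hsep t ht hpt (c - t) (by omega) (by omega)
    rw [show t + (c - t) = c from by omega] at this
    exact this hq0
  set A := (range c).filter p with hA
  have hAne : A.Nonempty := by
    obtain ⟨t, ht, hpt⟩ := hpne
    exact ⟨t, mem_filter.mpr ⟨mem_range.mpr ht, hpt⟩⟩
  set M := A.max' hAne with hM
  have hMA : M ∈ A := A.max'_mem hAne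
  obtain ⟨hM1, hM2⟩ := mem_filter.mp hMA
  have hM3 := mem_range.mp hM1
  have hM4 := hpr M hM3 hM2
  let X : Finset ℕ := A.image (fun t => t + 1) ∪ Ico (M + 2) (M + r + 1)
  have hXcard : X.card = A.card + (r - 1) := by
    rw [card_union_of_disjoint, card_image_of_injective _ (fun a b h => by simpa using h),
      Nat.card_Ico]
    · congr 1
      omega
    · rw [disjoint_left]
      intro x hx hx2
      obtain ⟨t, ht, rfl⟩ := mem_image.mp hx
      have := A.le_max' t ht
      have := mem_Ico.mp hx2
      omega
  have hdis : Disjoint X ((range c).filter q) := by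
    rw [disjoint_left]
    intro x hx hxq
    have hxq2 := (mem_filter.mp hxq).2
    rcases mem_union.mp hx with h | h
    · obtain ⟨t, ht, rfl⟩ := mem_image.mp h
      obtain ⟨ht1, ht2⟩ := mem_filter.mp ht
      exact hsep t (mem_range.mp ht1) ht2 1 le_rfl hr hxq2
    · have h1 := mem_Ico.mp h
      have := hsep M hM3 hM2 (x - M) (by omega) (by omega)
      rw [show M + (x - M) = x from by omega] at this
      exact this hxq2
  have hsub : X ∪ (range c).filter q ⊆ range c := by
    intro x hx
    rcases mem_union.mp hx with h | h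
    · rcases mem_union.mp h with h' | h'
      · obtain ⟨t, ht, rfl⟩ := mem_image.mp h'
        obtain ⟨ht1, ht2⟩ := mem_filter.mp ht
        have := hpr t (mem_range.mp ht1) ht2
        rw [mem_range]
        omega
      · have := mem_Ico.mp h'
        rw [mem_range]
        omega
    · exact (mem_filter.mp h).1
  have h1 := card_le_card hsub
  rw [card_union_of_disjoint hdis, hXcard, card_range] at h1
  omega

theorem dg_image {c : ℕ} {v : ℕ → V} (h : CycSeq G c v) (w : V) :
    dg G ((range c).image v) w = ((range c).filter (fun t => G.Adj w (v t))).card := by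
  have hinj : Set.InjOn v ((range c : Finset ℕ) : Set ℕ) := by
    intro x hx y hy hxy
    have hx' := mem_range.mp hx
    have hy' := mem_range.mp hy
    by_contra hne
    rcases Nat.lt_or_gt_of_ne hne with h1 | h1
    · exact h.inj x y h1 (by omega) hxy
    · exact h.inj y x h1 (by omega) hxy.symm
  unfold dg
  rw [filter_image, card_image_of_injOn (hinj.mono (by
    intro x hx
    exact (mem_filter.mp hx).1))]

/-- A longest path in a set. -/
theorem exists_longest_path (W : Finset V) (hW : W.Nonempty) :
    ∃ l : List V, IsPa G W l ∧ 1 ≤ l.length ∧ ∀ l', IsPa G W l' → l'.length ≤ l.length := by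
  obtain ⟨l, s, hg, h1, -⟩ := exists_extremal G W hW
  exact ⟨l, hg.1, by have := hg.2.1; have := hg.2.2.1; omega, h1⟩

theorem head_degree {W : Finset V} {l : List V} (hl : IsPa G W l)
    (hmax : ∀ l', IsPa G W l' → l'.length ≤ l.length) {a : V} (ha : a ∈ l.head?) :
    dg G W a + 1 ≤ l.length := by
  have hsub : insert a (W.filter (fun u => G.Adj a u)) ⊆ l.toFinset := by
    intro x hx
    rw [List.mem_toFinset]
    rcases mem_insert.mp hx with h | h
    · rw [h]
      exact List.mem_of_mem_head? ha
    · obtain ⟨hx1, hx2⟩ := mem_filter.mp h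
      by_contra hcon
      have hnew : IsPa G W (x :: l) := by
        refine ⟨List.nodup_cons.mpr ⟨hcon, hl.1⟩, ?_, ?_⟩
        · rw [List.isChain_cons]
          refine ⟨?_, hl.2.1⟩
          intro y hy
          have : y = a := by
            have h1 : l.head? = some a := ha
            rw [h1] at hy
            simpa using hy.symm
          rw [this]
          exact hx2.symm
        · intro y hy
          rcases List.mem_cons.mp hy with h | h
          · rw [h]; exact hx1
          · exact hl.2.2 y h
      have := hmax _ hnew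
      rw [List.length_cons] at this
      omega
  have h1 := card_le_card hsub
  rw [List.toFinset_card_of_nodup hl.1, card_insert_of_notMem] at h1
  · exact h1
  · intro h
    exact G.loopless.irrefl _ (mem_filter.mp h).2

theorem IsPa.reverse {W : Finset V} {l : List V} (h : IsPa G W l) : IsPa G W l.reverse := by
  refine ⟨List.nodup_reverse.mpr h.1, ?_, fun v hv => h.2.2 v (List.mem_reverse.mp hv)⟩
  rw [List.isChain_reverse]
  exact h.2.1.imp (fun x y h => SimpleGraph.Adj.symm h)

/-- Inserting an outside path between two vertices of a cycle. -/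
theorem insert_path {c : ℕ} {v : ℕ → V} (h : CycSeq G c v) {W : Finset V} {l : List V}
    (hl : IsPa G W l) (hdis : Disjoint W ((range c).image v)) {a b : V} (ha : a ∈ l.head?)
    (hb : b ∈ l.getLast?) {t k : ℕ} (hk1 : 1 ≤ k) (hk2 : k ≤ l.length) (hk3 : k < c)
    (hat : G.Adj a (v t)) (hbt : G.Adj b (v (t + k))) : ∃ m, c < m ∧ HasCyc G m := by
  have hv : ∀ s, v s ∉ W := by
    intro s hs
    refine (disjoint_left.mp hdis) hs ?_
    rw [mem_image]
    exact ⟨s % c, mem_range.mpr (Nat.mod_lt _ (by have := h.three; omega)), h.mod G s⟩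
  have h3 := h.three
  refine ⟨l.length + (c - k + 1), by omega, l ++ (List.range' (t + k) (c - k + 1)).map v,
    ⟨?_, ?_, ?_, ?_⟩, by simp⟩
  · rw [List.length_append, List.length_map, List.length_range']
    omega
  · rw [List.nodup_append]
    refine ⟨hl.1, ?_, ?_⟩
    · refine List.Nodup.map_on ?_ (List.nodup_range' ..)
      intro x hx y hy hxy
      rw [List.mem_range'_1] at hx hy
      by_contra hne
      rcases Nat.lt_or_gt_of_ne hne with h1 | h1
      · exact h.inj x y h1 (by omega) hxy
      · exact h.inj y x h1 (by omega) hxy.symm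
    · intro x hx y hy hxy
      obtain ⟨s, _, rfl⟩ := List.mem_map.mp hy
      have := hl.2.2 x hx
      rw [hxy] at this
      exact hv s this
  · rw [List.isChain_append]
    refine ⟨hl.2.1, ?_, ?_⟩
    · rw [List.isChain_map]
      exact chain_range' _ (fun s => h.adj s) _ _
    · intro x hx y hy
      rw [List.head?_map] at hy
      obtain ⟨s, hs, rfl⟩ := Option.mem_map.mp hy
      obtain ⟨hs1, -⟩ := head_range' hs
      have : x = b := by
        have h1 : l.getLast? = some b := hb
        rw [h1] at hx
        simpa using hx.symm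
      rw [this, hs1]
      exact hbt
  · intro x hx y hy
    have hy1 : y = a := by
      have h1 : l.head? = some a := ha
      rw [List.head?_append, h1] at hy
      simpa using hy.symm
    have hx1 : x = v t := by
      rw [List.range'_1_concat, List.map_append, List.map_cons, List.map_nil,
        ← List.append_assoc, List.getLast?_concat] at hx
      have : x = v (t + k + (c - k)) := by simpa using hx.symm
      rw [this, show t + k + (c - k) = t + c from by omega]
      exact h.per t
    rw [hx1, hy1]
    exact hat.symm

/-- Some vertex outside a longest cycle has small degree. -/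
theorem exists_low {c : ℕ} {v : ℕ → V} (h : CycSeq G c v)
    (hmax : ∀ m, HasCyc G m → m ≤ c) {S : Finset V} (hCS : (range c).image v ⊆ S)
    (hne : (S \ (range c).image v).Nonempty) (hS : S.card < 2 * c) :
    ∃ w ∈ S \ (range c).image v, 2 * dg G S w ≤ S.card := by
  classical
  by_contra hcon
  push Not at hcon
  set C := (range c).image v with hC
  set W := S \ C with hW
  have h3 := h.three
  have hCcard : C.card = c := by
    rw [hC, card_image_of_injOn, card_range]
    intro x hx y hy hxy
    have hx' := mem_range.mp hx
    have hy' := mem_range.mp hy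
    by_contra hne
    rcases Nat.lt_or_gt_of_ne hne with h1 | h1
    · exact h.inj x y h1 (by omega) hxy
    · exact h.inj y x h1 (by omega) hxy.symm
  have hWcard : W.card = S.card - c := by rw [hW, card_sdiff_of_subset hCS, hCcard]
  have hcS : c ≤ S.card := by rw [← hCcard]; exact card_le_card hCS
  have hdis : Disjoint W C := sdiff_disjoint
  obtain ⟨l, hl, hl1, hlmax⟩ := exists_longest_path G W hne
  have hlW := hl.length_le G
  have hlne : l ≠ [] := by
    intro h0
    rw [h0] at hl1
    simp at hl1
  obtain ⟨a, ha⟩ : ∃ a, a ∈ l.head? := by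
    obtain ⟨a, t, hat⟩ := List.exists_cons_of_ne_nil hlne
    exact ⟨a, by rw [hat]; simp⟩
  obtain ⟨b, hb⟩ : ∃ b, b ∈ l.getLast? := ⟨l.getLast hlne, List.getLast?_eq_getLast_of_ne_nil hlne⟩
  have haW : a ∈ W := hl.2.2 a (List.mem_of_mem_head? ha)
  have hbW : b ∈ W := hl.2.2 b (List.mem_of_mem_getLast? hb)
  have hda := head_degree G hl hlmax ha
  have hdb : dg G W b + 1 ≤ l.length := by
    have := head_degree G (hl.reverse G) (by simpa using hlmax) (a := b) (by
      rw [List.head?_reverse]; exact hb)
    simpa using this
  have hSa := hcon a haW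
  have hSb := hcon b hbW
  have hda2 : dg G S a = dg G W a + dg G C a := dg_sdiff G hCS a
  have hdb2 : dg G S b = dg G W b + dg G C b := dg_sdiff G hCS b
  -- both have neighbours on the cycle
  have hbC : 0 < dg G C b := by omega
  have haC : 0 < dg G C a := by omega
  obtain ⟨y, hy⟩ := card_pos.mp hbC
  obtain ⟨hy1, hy2⟩ := mem_filter.mp hy
  obtain ⟨t0, ht0, rfl⟩ := mem_image.mp hy1
  -- shift so that position `0` is a neighbour of `b`
  have h' := h.shift G t0
  have hCimg : (range c).image (fun t => v (t0 + t)) = C := h.image_shift G t0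
  have hdaC := dg_image G h' a
  have hdbC := dg_image G h' b
  rw [hCimg] at hdaC hdbC
  have hq0 : G.Adj b (v (t0 + c)) := by rw [h.per t0]; exact hy2
  have hpne : ∃ t < c, G.Adj a (v (t0 + t)) := by
    rw [hdaC] at haC
    obtain ⟨t, ht⟩ := card_pos.mp haC
    exact ⟨t, mem_range.mp (mem_filter.mp ht).1, (mem_filter.mp ht).2⟩
  have hsep : ∀ t, t < c → G.Adj a (v (t0 + t)) → ∀ k, 1 ≤ k → k ≤ l.length →
      ¬ G.Adj b (v (t0 + (t + k))) := by
    intro t _ hat k hk1 hk2 hbt
    rcases Nat.lt_or_ge k c with hk3 | hk3
    · obtain ⟨m, hm1, hm2⟩ := insert_path G h' hl (by rw [hCimg]; exact hdis) ha hb hk1 hk2 hk3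
        hat hbt
      have := hmax m hm2
      omega
    · exfalso
      omega
  have := gap (c := c) (r := l.length) hl1 (fun t => G.Adj a (v (t0 + t)))
    (fun t => G.Adj b (v (t0 + t))) hq0 hpne hsep (Classical.em _)
  rw [← hdaC, ← hdbC] at this
  omega

/-- The density survives on the vertex set of a longest cycle. -/
theorem cycle_dense {c : ℕ} {v : ℕ → V} (h : CycSeq G c v)
    (hmax : ∀ m, HasCyc G m → m ≤ c) : ∀ (n : ℕ) (S : Finset V), S.card = n →
      (range c).image v ⊆ S → S.card < 2 * c → S.card * (S.card + 1) ≤ 2 * E2 G S →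
      c * (c + 1) ≤ 2 * E2 G ((range c).image v) := by
  classical
  have hCcard : ((range c).image v).card = c := by
    rw [card_image_of_injOn, card_range]
    intro x hx y hy hxy
    have hx' := mem_range.mp hx
    have hy' := mem_range.mp hy
    by_contra hne
    rcases Nat.lt_or_gt_of_ne hne with h1 | h1
    · exact h.inj x y h1 (by omega) hxy
    · exact h.inj y x h1 (by omega) hxy.symm
  intro n
  induction n with
  | zero =>
    intro S hn hCS _ _
    have := card_le_card hCS
    rw [hCcard, hn] at this
    have := h.three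
    omega
  | succ n ih =>
    intro S hn hCS h2c hE
    by_cases hne : (S \ (range c).image v).Nonempty
    · obtain ⟨w, hw, hlow⟩ := exists_low G h hmax hCS hne h2c
      obtain ⟨hwS, hwC⟩ := mem_sdiff.mp hw
      have h1 : (S \ {w}).card = n := by
        rw [card_sdiff_of_subset (singleton_subset_iff.mpr hwS), card_singleton]
        omega
      refine ih (S \ {w}) h1 ?_ (by omega) ?_
      · intro x hx
        refine mem_sdiff.mpr ⟨hCS hx, ?_⟩
        intro hxw
        rw [mem_singleton.mp hxw] at hx
        exact hwC hx
      · have h2 := E2_sdiff G (singleton_subset_iff.mpr hwS)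
        rw [sum_singleton] at h2
        rw [h1]
        rw [hn] at hE hlow
        have h3 : E2 G {w} = 0 := by
          unfold E2 dg
          rw [sum_singleton, card_eq_zero, filter_eq_empty_iff]
          intro x hx hadj
          rw [mem_singleton.mp hx] at hadj
          exact G.loopless.irrefl _ hadj
        have h4 : (n + 1) * (n + 1 + 1) = n * (n + 1) + 2 * (n + 1) := by ring
        omega
    · rw [not_nonempty_iff_eq_empty, sdiff_eq_empty_iff_subset] at hne
      have : (range c).image v = S := Subset.antisymm hCS hne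
      rw [this, hCcard.symm, this]
      exact hE

/-- A longest cycle exists as soon as there is one. -/
theorem exists_longest_cycle [Fintype V] {m : ℕ} (hm : HasCyc G m) :
    ∃ c, HasCyc G c ∧ m ≤ c ∧ ∀ m', HasCyc G m' → m' ≤ c := by
  classical
  have hb : ∀ m', HasCyc G m' → m' ≤ Fintype.card V := by
    rintro m' ⟨l, hl, rfl⟩
    exact hl.2.1.length_le_card
  refine ⟨Nat.findGreatest (HasCyc G) (Fintype.card V), Nat.findGreatest_spec (hb m hm) hm,
    Nat.le_findGreatest (hb m hm) hm, fun m' hm' => Nat.le_findGreatest (hb m' hm') hm'⟩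

/-- On `2n-1` vertices, with degree sum at least `n (2n-1)`: all cycle lengths from `3` to
`n + 1`. -/
theorem all_lengths [Fintype V] {n : ℕ} (hn : 2 ≤ n) (hV : Fintype.card V = 2 * n - 1)
    (hE : n * (2 * n - 1) ≤ E2 G (univ : Finset V)) {m : ℕ} (hm : 3 ≤ m) (hmn : m ≤ n + 1) :
    HasCyc G m := by
  classical
  have hcard : (univ : Finset V).card = 2 * n - 1 := by rw [card_univ, hV]
  -- a cycle with more than `n` vertices
  obtain ⟨c0, hc0, hc0n⟩ : ∃ c0, HasCyc G c0 ∧ n < c0 := by
    by_contra hcon
    push Not at hcon
    have h1 := erdos_gallai G n hn (fun l hl => hcon l.length ⟨l, hl, rfl⟩) _ univ rfl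
      (by rw [← card_pos, hcard]; omega)
    rw [hcard] at h1
    have h2 : n * (2 * n - 1 - 1) < n * (2 * n - 1) := Nat.mul_lt_mul_of_pos_left (by omega) (by omega)
    omega
  obtain ⟨c, hc, hcc, hmax⟩ := exists_longest_cycle G hc0
  obtain ⟨l, hl, hlen⟩ := hc
  obtain ⟨v, hv, -⟩ := exists_seq G hl
  rw [hlen] at hv
  have h1 := cycle_dense G hv hmax _ univ rfl (subset_univ _) (by rw [hcard]; omega) (by
    rw [hcard]
    have : 2 * n - 1 + 1 = 2 * n := by omega
    rw [this]
    calc (2 * n - 1) * (2 * n) = 2 * (n * (2 * n - 1)) := by ring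
      _ ≤ 2 * E2 G univ := Nat.mul_le_mul_left _ hE)
  refine bondy G hv ?_ hm (by omega)
  have h2 : c * c < c * (c + 1) := Nat.mul_lt_mul_of_pos_left (by omega) (by omega)
  omega

end H113TC
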