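import Pool.Agent.H113TC.EG

/-! Cycles as periodic sequences; Bondy's counting for Hamiltonian graphs. -/

set_option autoImplicit false
set_option linter.unusedSectionVars false

namespace H113TC

open Finset

variable {V : Type*} [DecidableEq V] (G : SimpleGraph V) [DecidableRel G.Adj]

def HasCyc (m : ℕ) : Prop := ∃ l : List V, IsCyc G l ∧ l.length = m

structure CycSeq (c : ℕ) (v : ℕ → V) : Prop where
  three : 3 ≤ c
  per : ∀ t, v (t + c) = v t
  adj : ∀ t, G.Adj (v t) (v (t + 1))
  inj : ∀ s t, s < t → t < s + c → v s ≠ v t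

theorem CycSeq.shift {c : ℕ} {v : ℕ → V} (h : CycSeq G c v) (i : ℕ) :
    CycSeq G c (fun t => v (i + t)) := by
  refine ⟨h.three, ?_, ?_, ?_⟩
  · intro t
    show v (i + (t + c)) = v (i + t)
    rw [← Nat.add_assoc]
    exact h.per _
  · intro t
    show G.Adj (v (i + t)) (v (i + (t + 1)))
    rw [← Nat.add_assoc]
    exact h.adj _
  · intro s t hst ht
    exact h.inj _ _ (by omega) (by omega)

theorem CycSeq.per_mul {c : ℕ} {v : ℕ → V} (h : CycSeq G c v) (t k : ℕ) :
    v (t + k * c) = v t := by
  induction k with
  | zero => simp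
  | succ k ih => rw [Nat.succ_mul, ← Nat.add_assoc, h.per, ih]

theorem CycSeq.mod {c : ℕ} {v : ℕ → V} (h : CycSeq G c v) (t : ℕ) : v (t % c) = v t := by
  conv_rhs => rw [← Nat.mod_add_div t c, Nat.mul_comm]
  exact (h.per_mul G _ _).symm

theorem CycSeq.image_shift {c : ℕ} {v : ℕ → V} (h : CycSeq G c v) (i : ℕ) :
    (range c).image (fun t => v (i + t)) = (range c).image v := by
  have h3 := h.three
  ext x
  simp only [mem_image, mem_range]
  constructor
  · rintro ⟨t, _, rfl⟩
    exact ⟨(i + t) % c, Nat.mod_lt _ (by omega), h.mod G _⟩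
  · rintro ⟨t, ht, rfl⟩
    have hi : i % c < c := Nat.mod_lt _ (by omega)
    refine ⟨(t + (c - i % c)) % c, Nat.mod_lt _ (by omega), ?_⟩
    rw [← h.mod G (i + (t + (c - i % c)) % c), Nat.add_mod_mod, h.mod G]
    have : i + (t + (c - i % c)) = t + (i / c + 1) * c := by
      have := Nat.mod_add_div i c
      rw [Nat.succ_mul, Nat.mul_comm]
      omega
    rw [this, h.per_mul G]

/-- Every cycle gives a periodic sequence. -/
theorem exists_seq {l : List V} (hl : IsCyc G l) :
    ∃ v : ℕ → V, CycSeq G l.length v ∧ (range l.length).image v = l.toFinset := by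
  obtain ⟨h3, hnd, hch, hcl⟩ := hl
  have hpos : 0 < l.length := by omega
  have hlt : ∀ t, t % l.length < l.length := fun t => Nat.mod_lt _ hpos
  refine ⟨fun t => l[t % l.length]'(hlt t), ⟨h3, ?_, ?_, ?_⟩, ?_⟩
  · intro t
    simp only [Nat.add_mod_right]
  · intro t
    show G.Adj (l[t % l.length]'(hlt t)) (l[(t + 1) % l.length]'(hlt (t + 1)))
    by_cases h : t % l.length + 1 < l.length
    · have h1 : (t + 1) % l.length = t % l.length + 1 := by
        rw [Nat.add_mod, Nat.mod_eq_of_lt (show 1 < l.length by omega), Nat.mod_eq_of_lt h]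
      simp only [h1]
      exact (List.isChain_iff_getElem.mp hch) _ h
    · have h0 : t % l.length = l.length - 1 := by have := hlt t; omega
      have h1 : (t + 1) % l.length = 0 := by
        rw [Nat.add_mod, h0, Nat.mod_eq_of_lt (show 1 < l.length by omega),
          show l.length - 1 + 1 = l.length from by omega, Nat.mod_self]
      simp only [h0, h1]
      refine hcl _ ?_ _ ?_
      · rw [List.getLast?_eq_getElem?, List.getElem?_eq_getElem (by omega)]
        rfl
      · rw [List.head?_eq_getElem?, List.getElem?_eq_getElem hpos]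
        rfl
  · intro s t hst ht heq
    have h1 : s % l.length = t % l.length := (List.Nodup.getElem_inj_iff hnd).mp heq
    have h2 : (t - s) % l.length = 0 := by
      have := (Nat.modEq_iff_dvd' hst.le).mp h1
      exact Nat.mod_eq_zero_of_dvd this
    rw [Nat.mod_eq_of_lt (by omega)] at h2
    omega
  · ext x
    simp only [mem_image, mem_range, List.mem_toFinset]
    constructor
    · rintro ⟨t, _, rfl⟩
      exact List.getElem_mem _
    · intro hx
      obtain ⟨i, hi, hix⟩ := List.getElem_of_mem hx
      refine ⟨i, hi, ?_⟩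
      simp only [Nat.mod_eq_of_lt hi]
      exact hix

theorem chain_range' (R : ℕ → ℕ → Prop) (hR : ∀ t, R t (t + 1)) (a k : ℕ) :
    (List.range' a k).IsChain R := by
  rw [List.isChain_iff_getElem]
  intro i hi
  simp only [List.getElem_range', Nat.one_mul]
  rw [← Nat.add_assoc]
  exact hR _

theorem head_range' {a k x : ℕ} (h : x ∈ (List.range' a k).head?) : x = a ∧ 0 < k := by
  cases k with
  | zero => simp at h
  | succ k =>
    rw [List.range'_succ] at h
    simp at h
    omega

theorem last_range' {a k x : ℕ} (h : x ∈ (List.range' a k).getLast?) :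
    x = a + k - 1 ∧ 0 < k := by
  cases k with
  | zero => simp at h
  | succ k =>
    rw [List.range'_1_concat, List.getLast?_concat] at h
    simp at h
    omega

/-- Building a cycle from an index list. -/
theorem mk_cycle {c : ℕ} {v : ℕ → V} (h : CycSeq G c v) (J : List ℕ) (h3 : 3 ≤ J.length)
    (hJ : J.Nodup) (hlt : ∀ j ∈ J, j < c) (hch : J.IsChain (fun a b => G.Adj (v a) (v b)))
    (hcl : ∀ a ∈ J.getLast?, ∀ b ∈ J.head?, G.Adj (v a) (v b)) : HasCyc G J.length := by
  refine ⟨J.map v, ⟨by simpa using h3, ?_, ?_, ?_⟩, by simp⟩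
  · refine List.Nodup.map_on ?_ hJ
    intro x hx y hy hxy
    by_contra hne
    rcases Nat.lt_or_gt_of_ne hne with h1 | h1
    · exact h.inj x y h1 (by have := hlt y hy; omega) hxy
    · exact h.inj y x h1 (by have := hlt x hx; omega) hxy.symm
  · rw [List.isChain_map]
    exact hch
  · intro a ha b hb
    rw [List.getLast?_map] at ha
    rw [List.head?_map] at hb
    obtain ⟨a', ha', rfl⟩ := Option.mem_map.mp ha
    obtain ⟨b', hb', rfl⟩ := Option.mem_map.mp hb
    exact hcl a' ha' b' hb'

theorem full_cycle {c : ℕ} {v : ℕ → V} (h : CycSeq G c v) : HasCyc G c := by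
  have h3 := h.three
  have := mk_cycle G h (List.range' 0 c) (by simpa using h3) (List.nodup_range' ..)
    (fun j hj => by rw [List.mem_range'_1] at hj; omega)
    (chain_range' _ (fun t => h.adj t) _ _) (by
      intro a ha b hb
      obtain ⟨ha1, -⟩ := last_range' ha
      obtain ⟨hb1, -⟩ := head_range' hb
      rw [ha1, hb1]
      have h1 := h.adj (0 + c - 1)
      have h2 := h.per 0
      rw [show 0 + c - 1 + 1 = 0 + c from by omega, h2] at h1
      exact h1)
  simpa using this

/-- First type of short cycle. -/
theorem cycle_one {c : ℕ} {v : ℕ → V} (h : CycSeq G c v) {m j : ℕ} (hm : 3 ≤ m)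
    (hj1 : m - 1 ≤ j) (hj2 : j < c) (h0 : G.Adj (v 0) (v j))
    (h1 : G.Adj (v 1) (v (j + 3 - m))) : HasCyc G m := by
  have := mk_cycle G h ([1] ++ (List.range' (j + 3 - m) (m - 2) ++ [0])) (by simp; omega)
    (by
      rw [List.nodup_append, List.nodup_append]
      refine ⟨List.nodup_singleton _, ⟨List.nodup_range' .., List.nodup_singleton _, ?_⟩, ?_⟩
      · intro a ha b hb
        rw [List.mem_range'_1] at ha
        have : b = 0 := by simpa using hb
        omega
      · intro a ha b hb
        have h2 : a = 1 := by simpa using ha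
        rcases List.mem_append.mp hb with h4 | h4
        · rw [List.mem_range'_1] at h4; omega
        · have : b = 0 := by simpa using h4
          omega)
    (by
      intro a ha
      rcases List.mem_append.mp ha with h4 | h4
      · have : a = 1 := by simpa using h4
        have := h.three
        omega
      · rcases List.mem_append.mp h4 with h5 | h5
        · rw [List.mem_range'_1] at h5; omega
        · have : a = 0 := by simpa using h5
          omega)
    (by
      rw [List.isChain_append, List.isChain_append]
      refine ⟨List.isChain_singleton _, ⟨chain_range' _ (fun t => h.adj t) _ _,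
        List.isChain_singleton _, ?_⟩, ?_⟩
      · intro a ha b hb
        obtain ⟨ha1, ha2⟩ := last_range' ha
        have hb1 : b = 0 := by simpa using hb.symm
        rw [ha1, hb1, show j + 3 - m + (m - 2) - 1 = j from by omega]
        exact h0.symm
      · intro a ha b hb
        have ha1 : a = 1 := by simpa using ha.symm
        have hb1 : b = j + 3 - m := by
          obtain ⟨k, hk⟩ : ∃ k, m - 2 = k + 1 := ⟨m - 3, by omega⟩
          rw [hk, List.range'_succ] at hb
          simpa using hb.symm
        rw [ha1, hb1]
        exact h1)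
    (by
      intro a ha b hb
      have ha1 : a = 0 := by
        rw [← List.append_assoc, List.getLast?_concat] at ha
        simpa using ha.symm
      have hb1 : b = 1 := by simpa using hb.symm
      rw [ha1, hb1]
      exact h.adj 0)
  have hlen : ([1] ++ (List.range' (j + 3 - m) (m - 2) ++ [0])).length = m := by
    simp; omega
  rwa [hlen] at this

/-- Second type of short cycle. -/
theorem cycle_two {c : ℕ} {v : ℕ → V} (h : CycSeq G c v) {m j : ℕ} (hmc : m ≤ c)
    (hj1 : 2 ≤ j) (hj2 : j + 2 ≤ m) (h0 : G.Adj (v 0) (v j))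
    (h1 : G.Adj (v 1) (v (c + 1 + j - m))) : HasCyc G m := by
  have := mk_cycle G h ([0] ++ ((List.range' 1 j).reverse ++
      List.range' (c + 1 + j - m) (m - 1 - j))) (by simp; omega)
    (by
      rw [List.nodup_append, List.nodup_append]
      refine ⟨List.nodup_singleton _, ⟨?_, List.nodup_range' .., ?_⟩, ?_⟩
      · rw [List.nodup_reverse]
        exact List.nodup_range' ..
      · intro a ha b hb
        rw [List.mem_reverse, List.mem_range'_1] at ha
        rw [List.mem_range'_1] at hb
        omega
      · intro a ha b hb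
        have h2 : a = 0 := by simpa using ha
        rcases List.mem_append.mp hb with h4 | h4
        · rw [List.mem_reverse, List.mem_range'_1] at h4; omega
        · rw [List.mem_range'_1] at h4; omega)
    (by
      intro a ha
      rcases List.mem_append.mp ha with h4 | h4
      · have : a = 0 := by simpa using h4
        have := h.three
        omega
      · rcases List.mem_append.mp h4 with h5 | h5
        · rw [List.mem_reverse, List.mem_range'_1] at h5; omega
        · rw [List.mem_range'_1] at h5; omega)
    (by
      rw [List.isChain_append, List.isChain_append]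
      refine ⟨List.isChain_singleton _, ⟨?_, chain_range' _ (fun t => h.adj t) _ _, ?_⟩, ?_⟩
      · rw [List.isChain_reverse]
        exact chain_range' _ (fun t => (h.adj t).symm) _ _
      · intro a ha b hb
        rw [List.getLast?_reverse] at ha
        obtain ⟨ha1, -⟩ := head_range' ha
        obtain ⟨hb1, -⟩ := head_range' hb
        rw [ha1, hb1]
        exact h1
      · intro a ha b hb
        have ha1 : a = 0 := by simpa using ha.symm
        have hb1 : b = j := by
          rw [List.head?_append, List.head?_reverse] at hb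
          obtain ⟨k, hk⟩ : ∃ k, j = k + 1 := ⟨j - 1, by omega⟩
          rw [hk, List.range'_1_concat, List.getLast?_concat] at hb
          simp at hb
          omega
        rw [ha1, hb1]
        exact h0)
    (by
      intro a ha b hb
      have hb1 : b = 0 := by simpa using hb.symm
      have ha1 : a = c - 1 := by
        obtain ⟨k, hk⟩ : ∃ k, m - 1 - j = k + 1 := ⟨m - 2 - j, by omega⟩
        rw [hk, List.range'_1_concat, ← List.append_assoc, ← List.append_assoc,
          List.getLast?_concat] at ha
        simp at ha
        omega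
      rw [ha1, hb1]
      have h1 := h.adj (c - 1)
      have h2 := h.per 0
      have := h.three
      rw [show c - 1 + 1 = 0 + c from by omega, h2] at h1
      exact h1)
  have hlen : ([0] ++ ((List.range' 1 j).reverse ++
      List.range' (c + 1 + j - m) (m - 1 - j))).length = m := by
    simp; omega
  rwa [hlen] at this

/-- Two consecutive vertices of a Hamilton cycle of a graph without `m`-cycle. -/
theorem consecutive_bound {c : ℕ} {v : ℕ → V} (h : CycSeq G c v) {m : ℕ} (hm : 3 ≤ m)
    (hmc : m < c) (hno : ¬ HasCyc G m) :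
    dg G ((range c).image v) (v 0) + dg G ((range c).image v) (v 1) ≤ c := by
  classical
  let A : Finset ℕ := (Ico 2 c).filter (fun j => G.Adj (v 0) (v j))
  let B : Finset ℕ := (Ico 2 c).filter (fun j => G.Adj (v 1) (v j))
  let φ : ℕ → ℕ := fun j => if m - 1 ≤ j then j + 3 - m else c + 1 + j - m
  have hφ : ∀ j, m - 1 ≤ j → φ j = j + 3 - m := fun j hj => if_pos hj
  have hφ' : ∀ j, ¬ m - 1 ≤ j → φ j = c + 1 + j - m := fun j hj => if_neg hj
  have hinj : Set.InjOn φ (A : Set ℕ) := by
    intro a ha b hb hab
    have ha1 := mem_Ico.mp (mem_filter.mp ha).1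
    have hb1 := mem_Ico.mp (mem_filter.mp hb).1
    by_cases h1 : m - 1 ≤ a <;> by_cases h2 : m - 1 ≤ b
    · rw [hφ a h1, hφ b h2] at hab; omega
    · rw [hφ a h1, hφ' b h2] at hab; omega
    · rw [hφ' a h1, hφ b h2] at hab; omega
    · rw [hφ' a h1, hφ' b h2] at hab; omega
  have hdisj : Disjoint (A.image φ) B := by
    rw [disjoint_left]
    intro x hx hxB
    obtain ⟨j, hj, rfl⟩ := mem_image.mp hx
    obtain ⟨hj1, hj2⟩ := mem_filter.mp hj
    have hj3 := mem_Ico.mp hj1
    have hB := (mem_filter.mp hxB).2
    by_cases h1 : m - 1 ≤ j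
    · rw [hφ j h1] at hB
      exact hno (cycle_one G h hm h1 hj3.2 hj2 hB)
    · rw [hφ' j h1] at hB
      exact hno (cycle_two G h hmc.le hj3.1 (by omega) hj2 hB)
  have hsub : A.image φ ∪ B ⊆ Ico 2 c := by
    intro x hx
    rcases mem_union.mp hx with h1 | h1
    · obtain ⟨j, hj, rfl⟩ := mem_image.mp h1
      have hj3 := mem_Ico.mp (mem_filter.mp hj).1
      by_cases h2 : m - 1 ≤ j
      · rw [hφ j h2, mem_Ico]; omega
      · rw [hφ' j h2, mem_Ico]; omega
    · exact (mem_filter.mp h1).1
  have hAB : A.card + B.card ≤ c - 2 := by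
    have h1 := card_le_card hsub
    rw [card_union_of_disjoint hdisj, card_image_of_injOn hinj, Nat.card_Ico] at h1
    exact h1
  have hdA : dg G ((range c).image v) (v 0) ≤ A.card + 1 := by
    have : ((range c).image v).filter (fun u => G.Adj (v 0) u) ⊆ (insert 1 A).image v := by
      intro x hx
      obtain ⟨hx1, hx2⟩ := mem_filter.mp hx
      obtain ⟨j, hj, rfl⟩ := mem_image.mp hx1
      refine mem_image_of_mem _ ?_
      by_cases h1 : j = 1
      · rw [h1]; exact mem_insert_self _ _
      · refine mem_insert_of_mem (mem_filter.mpr ⟨mem_Ico.mpr ⟨?_, mem_range.mp hj⟩, hx2⟩)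
        by_contra hcon
        have : j = 0 := by omega
        rw [this] at hx2
        exact G.loopless.irrefl _ hx2
    exact (card_le_card this).trans (card_image_le.trans (card_insert_le _ _))
  have hdB : dg G ((range c).image v) (v 1) ≤ B.card + 1 := by
    have : ((range c).image v).filter (fun u => G.Adj (v 1) u) ⊆ (insert 0 B).image v := by
      intro x hx
      obtain ⟨hx1, hx2⟩ := mem_filter.mp hx
      obtain ⟨j, hj, rfl⟩ := mem_image.mp hx1
      refine mem_image_of_mem _ ?_
      by_cases h1 : j = 0
      · rw [h1]; exact mem_insert_self _ _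
      · refine mem_insert_of_mem (mem_filter.mpr ⟨mem_Ico.mpr ⟨?_, mem_range.mp hj⟩, hx2⟩)
        by_contra hcon
        have : j = 1 := by omega
        rw [this] at hx2
        exact G.loopless.irrefl _ hx2
    exact (card_le_card this).trans (card_image_le.trans (card_insert_le _ _))
  have := h.three
  omega

theorem sum_cyc {c : ℕ} {v : ℕ → V} (h : CycSeq G c v) (f : V → ℕ) :
    ∑ x ∈ (range c).image v, f x = ∑ i ∈ range c, f (v i) := by
  refine sum_image ?_
  intro x hx y hy hxy
  have hx' := mem_range.mp hx
  have hy' := mem_range.mp hy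
  by_contra hne
  rcases Nat.lt_or_gt_of_ne hne with h1 | h1
  · exact h.inj x y h1 (by omega) hxy
  · exact h.inj y x h1 (by omega) hxy.symm

/-- Bondy: a Hamiltonian graph with more than a quarter of the squares. -/
theorem bondy {c : ℕ} {v : ℕ → V} (h : CycSeq G c v)
    (hE : c * c < 2 * E2 G ((range c).image v)) {m : ℕ} (hm : 3 ≤ m) (hmc : m ≤ c) :
    HasCyc G m := by
  rcases Nat.lt_or_eq_of_le hmc with h1 | h1
  · by_contra hno
    set S := (range c).image v with hS
    have hb : ∀ i, dg G S (v i) + dg G S (v (i + 1)) ≤ c := by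
      intro i
      have h2 := consecutive_bound G (h.shift G i) hm h1 hno
      rw [h.image_shift G i] at h2
      simpa using h2
    have hs1 : E2 G S = ∑ i ∈ range c, dg G S (v i) := sum_cyc G h _
    have hs2 : E2 G S = ∑ i ∈ range c, dg G S (v (i + 1)) := by
      have h3 := sum_cyc G (h.shift G 1) (fun x => dg G S x)
      rw [h.image_shift G 1] at h3
      rw [show E2 G S = ∑ x ∈ S, dg G S x from rfl, h3]
      exact sum_congr rfl fun i _ => by rw [Nat.add_comm]
    have h4 : 2 * E2 G S ≤ c * c := by
      calc 2 * E2 G S = ∑ i ∈ range c, dg G S (v i) + ∑ i ∈ range c, dg G S (v (i + 1)) := by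
            rw [← hs1, ← hs2]; ring
        _ = ∑ i ∈ range c, (dg G S (v i) + dg G S (v (i + 1))) := by rw [sum_add_distrib]
        _ ≤ ∑ _i ∈ range c, c := sum_le_sum fun i _ => hb i
        _ = c * c := by simp
    omega
  · rw [h1]
    exact full_cycle G h

end H113TC
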